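import Pool.Agent.Lib.MP_0a5adf_nt.TP.Interfaces

/-!
# TAO+ : modules UPPER, LOWER, UBD
-/

set_option autoImplicit false

namespace Pool.Agent.Lib.MP_0a5adf_nt.H55

open Finset Pool.Agent.Lib.MP_0a5adf_nt.TP

lemma th_nonneg : 0 ≤ th := Real.logb_nonneg (by norm_num) (by norm_num)

lemma th_le_two : th ≤ 2 := by
  unfold th
  rw [Real.logb_le_iff_le_rpow (by norm_num) (by norm_num)]
  norm_num

lemma three_pow (s : ℕ) : (3 : ℝ) ^ s = (2 : ℝ) ^ (th * s) := by
  have h : (2 : ℝ) ^ th = 3 := Real.rpow_logb (by norm_num) (by norm_num) (by norm_num)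
  rw [Real.rpow_mul (by norm_num), h, Real.rpow_natCast]

lemma two_pow_sub (k D : ℕ) (h : 2 * D ≤ k) :
    (2 : ℝ) ^ (k - 2 * D) = (2 : ℝ) ^ ((k : ℝ) - 2 * D) := by
  rw [← Real.rpow_natCast]
  congr 1
  push_cast [Nat.cast_sub h]
  ring

lemma isUnit_two (s : ℕ) : IsUnit (2 : ZMod (3 ^ s)) := by
  have := (ZMod.isUnit_iff_coprime 2 (3 ^ s)).2 (Nat.Coprime.pow_right s (by norm_num))
  exact_mod_cast this

lemma sg_mul_sg (d : Bool) : sg d * sg d = 1 := by cases d <;> simp [sg]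

/-- the residue condition is equivalent to divisibility -/
lemma res_iff (h4 : ∀ (i k : ℕ) (S : Finset ℕ), S ⊆ Icc 1 i →
    (2 : ZMod (3 ^ k)) ^ i * xz (3 ^ k) S = (num i S : ZMod (3 ^ k)))
    (d : Bool) (i s M : ℕ) (S : Finset ℕ) (hS : S ⊆ Icc 1 i) :
    xz (3 ^ s) S = ((sg d * M : ℤ) : ZMod (3 ^ s)) ↔
      ((3 ^ s : ℕ) : ℤ) ∣ 2 ^ i * (M : ℤ) - sg d * num i S := by
  have hu : IsUnit ((2 : ZMod (3 ^ s)) ^ i) := (isUnit_two s).pow i
  have h := h4 i s S hS
  have hsg : ((sg d : ℤ) : ZMod (3 ^ s)) * ((sg d : ℤ) : ZMod (3 ^ s)) = 1 := by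
    rw [← Int.cast_mul, sg_mul_sg, Int.cast_one]
  rw [← ZMod.intCast_zmod_eq_zero_iff_dvd]
  push_cast
  rw [← h]
  constructor
  · intro e
    rw [e]
    linear_combination (-(2 : ZMod (3 ^ s)) ^ i * (M : ZMod (3 ^ s))) * hsg
  · intro e
    have e1 : (2 : ZMod (3 ^ s)) ^ i * ((sg d : ℤ) * (M : ZMod (3 ^ s)))
        = (2 : ZMod (3 ^ s)) ^ i * xz (3 ^ s) S := by
      linear_combination ((sg d : ℤ) : ZMod (3 ^ s)) * e
        + ((2 : ZMod (3 ^ s)) ^ i * xz (3 ^ s) S) * hsg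
    have e2 := hu.mul_left_cancel e1
    rw [← e2]

/-- the orbit dictionary in real form -/
lemma dyn_real (hD : DynStatement) (d : Bool) (N i : ℕ) :
    par d N i ⊆ Icc 1 i ∧ (par d N i).card = od d i N ∧
    (2 : ℝ) ^ i * ((T d)^[i] N : ℝ) = 3 ^ (par d N i).card * (N : ℝ)
      + (sg d : ℝ) * num i (par d N i) ∧
    (num i (par d N i) : ℝ) + 2 ^ i ≤ 3 ^ (par d N i).card * 2 ^ i ∧
    xz (3 ^ (par d N i).card) (par d N i) =
      ((sg d * ((T d)^[i] N : ℕ) : ℤ) : ZMod (3 ^ (par d N i).card)) := by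
  obtain ⟨h1, -, h3, h4⟩ := hD
  obtain ⟨a1, a2, a3⟩ := h1 d N i
  refine ⟨a1, a2, ?_, ?_, ?_⟩
  · have := congrArg (fun z : ℤ => (z : ℝ)) a3
    push_cast at this
    exact this
  · have := h3 i _ a1
    exact_mod_cast this
  · rw [res_iff h4 d i _ _ _ a1]
    refine ⟨(N : ℤ), ?_⟩
    push_cast
    linarith

open Classical in
/-- the index set of the expansion of `G` -/
noncomputable def GI (d : Bool) (i : ℕ) (Ts : Finset ℕ) (M : ℕ) : Finset (Σ _ : ℕ, Finset ℕ) :=
  Ts.sigma fun s => (powersetCard s (Icc 1 i)).filter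
    fun S => xz (3 ^ s) S = ((sg d * M : ℤ) : ZMod (3 ^ s))

lemma G_expand (d : Bool) (i : ℕ) (Ts : Finset ℕ) (M : ℕ) :
    ∑ s ∈ Ts, 3 ^ s * Pc s i s (sg d * M) = ∑ q ∈ GI d i Ts M, (3 : ℝ) ^ q.1 / 2 ^ i := by
  classical
  unfold GI
  rw [Finset.sum_sigma]
  refine Finset.sum_congr rfl fun s _ => ?_
  simp only [Finset.sum_const, nsmul_eq_mul]
  unfold Pc
  ring

lemma sum_G (d : Bool) (i : ℕ) (Ts : ℕ → Finset ℕ) (F : Finset ℕ) :
    ∑ M ∈ F, 1 / (M : ℝ) * ∑ s ∈ Ts M, 3 ^ s * Pc s i s (sg d * M) =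
      ∑ q ∈ F.sigma fun M => GI d i (Ts M) M,
        1 / (q.1 : ℝ) * ((3 : ℝ) ^ q.2.1 / 2 ^ i) := by
  rw [Finset.sum_sigma]
  refine Finset.sum_congr rfl fun M _ => ?_
  rw [G_expand, Finset.mul_sum]

lemma mem_typ {i D s : ℕ} : s ∈ typ i D ↔ s ≤ i ∧ |2 * (s : ℝ) - i| ≤ D := by
  classical
  unfold typ
  rw [mem_filter, mem_range, Nat.lt_succ_iff]

lemma od_le (d : Bool) (i N : ℕ) : od d i N ≤ i := by
  unfold od
  calc ∑ j ∈ range i, ((T d)^[j] N) % 2 ≤ ∑ _j ∈ range i, 1 :=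
        Finset.sum_le_sum fun j _ => by omega
    _ = i := by simp

/-- the image of `N` in the index set -/
noncomputable def img (d : Bool) (i N : ℕ) : Σ _ : ℕ, Σ _ : ℕ, Finset ℕ :=
  ⟨(T d)^[i] N, ⟨(par d N i).card, par d N i⟩⟩

lemma img_mem (hD : DynStatement) (d : Bool) {i N : ℕ} {F : Finset ℕ} {Ts : ℕ → Finset ℕ}
    (hF : (T d)^[i] N ∈ F) (hN : od d i N ∈ Ts ((T d)^[i] N)) :
    img d i N ∈ F.sigma fun M => GI d i (Ts M) M := by
  classical
  obtain ⟨a1, a2, -, -, a5⟩ := dyn_real hD d N i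
  unfold img GI
  rw [mem_sigma, mem_sigma, mem_filter, mem_powersetCard]
  refine ⟨hF, ?_, ⟨a1, rfl⟩, a5⟩
  rw [a2]
  exact hN

lemma img_inj (hD : DynStatement) (d : Bool) (i : ℕ) : Function.Injective (img d i) := by
  intro N N' h
  obtain ⟨-, -, a3, -, -⟩ := dyn_real hD d N i
  obtain ⟨-, -, b3, -, -⟩ := dyn_real hD d N' i
  unfold img at h
  have h1 : (T d)^[i] N = (T d)^[i] N' := congrArg (fun q => q.1) h
  have h2 : par d N i = par d N' i := congrArg (fun q => q.2.2) h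
  rw [h1, h2] at a3
  have h3 : (3 : ℝ) ^ (par d N' i).card * (N : ℝ) = 3 ^ (par d N' i).card * (N' : ℝ) := by
    linarith
  have h4 : (3 : ℝ) ^ (par d N' i).card ≠ 0 := by positivity
  exact_mod_cast mul_left_cancel₀ h4 h3

lemma mem_blk {k l N : ℕ} : N ∈ blk k l ↔ 2 ^ k ≤ N ∧ N < 2 ^ (k + l) := by
  unfold blk; rw [mem_Ico]

/-- Module UPPER -/
theorem upper (hD : DynStatement) (hP : PathStatement) : UpperStatement := by
  classical
  intro d a l i k D x B hD2 hia hDk hak hx0 hx1 hsm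
  unfold G
  rw [sum_G d i (fun _ => typ i D)]
  set F := (blk a l).filter (fun N => |2 * (od d i N : ℝ) - i| ≤ D ∧ (T d)^[i] N ∈ B) with hF
  set F' := (blk (k - 2 * D) (l + 4 * D)).filter (fun M => M ∈ B) with hF'
  have hD2' : (2 : ℝ) ≤ D := by exact_mod_cast hD2
  have th0 := th_nonneg
  have th2 := th_le_two
  have hak' := abs_le.1 hak
  -- position of the image
  have hpos : ∀ N ∈ F, (T d)^[i] N ∈ F' := by
    intro N hN
    rw [hF, mem_filter, mem_blk] at hN
    obtain ⟨⟨n1, n2⟩, n3, n4⟩ := hN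
    rw [hF', mem_filter, mem_blk]
    obtain ⟨p1, p2⟩ := hP d N i D a n1 hia n3
    have m1 : (2 : ℝ) ^ a ≤ N := by exact_mod_cast n1
    have m2 : (N : ℝ) < 2 ^ (a + l) := by exact_mod_cast n2
    refine ⟨⟨?_, ?_⟩, n4⟩
    · have h1 : (2 : ℝ) ^ (k - 2 * D) ≤ ((T d)^[i] N : ℝ) := by
        rw [two_pow_sub k D hDk]
        refine le_trans ?_ p1
        calc (2 : ℝ) ^ ((k : ℝ) - 2 * D)
            ≤ 2 ^ ((a : ℝ) - 1 + (-(mu * i) - th * D / 2)) := by
              refine Real.rpow_le_rpow_of_exponent_le (by norm_num) ?_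
              nlinarith
          _ = 2 ^ (a : ℝ) / 2 * (2 : ℝ) ^ (-(mu * i) - th * D / 2) := by
              rw [Real.rpow_add (by norm_num), Real.rpow_sub (by norm_num), Real.rpow_one]
          _ ≤ (N : ℝ) / 2 * (2 : ℝ) ^ (-(mu * i) - th * D / 2) := by
              refine mul_le_mul_of_nonneg_right ?_ (by positivity)
              rw [Real.rpow_natCast]
              linarith
      exact_mod_cast h1
    · have h1 : ((T d)^[i] N : ℝ) < (2 : ℝ) ^ (k - 2 * D + (l + 4 * D)) := by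
        refine lt_of_le_of_lt p2 ?_
        have e : (2 : ℝ) ^ (k - 2 * D + (l + 4 * D)) = (2 : ℝ) ^ ((k : ℝ) + l + 2 * D) := by
          rw [← Real.rpow_natCast]
          congr 1
          push_cast [Nat.cast_sub hDk]
          ring
        rw [e]
        calc 2 * (N : ℝ) * (2 : ℝ) ^ (-(mu * i) + th * D / 2)
            < 2 * (2 : ℝ) ^ (a + l) * (2 : ℝ) ^ (-(mu * i) + th * D / 2) := by
              refine mul_lt_mul_of_pos_right ?_ (by positivity)
              linarith
          _ = (2 : ℝ) ^ (1 + ((a : ℝ) + l) + (-(mu * i) + th * D / 2)) := by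
              rw [Real.rpow_add two_pos (1 + ((a : ℝ) + l)) _,
                Real.rpow_add two_pos 1 ((a : ℝ) + l), Real.rpow_one, ← Nat.cast_add,
                Real.rpow_natCast]
          _ ≤ (2 : ℝ) ^ ((k : ℝ) + l + 2 * D) := by
              refine Real.rpow_le_rpow_of_exponent_le (by norm_num) ?_
              nlinarith
      exact_mod_cast h1
  -- comparison of the weights
  set v : (Σ _ : ℕ, Σ _ : ℕ, Finset ℕ) → ℝ := fun q => 1 / (q.1 : ℝ) * ((3 : ℝ) ^ q.2.1 / 2 ^ i)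
    with hv
  have hw : ∀ N ∈ F, (1 : ℝ) / N ≤ (1 + 2 * x) * v (img d i N) := by
    intro N hN
    have hM := hpos N hN
    rw [hF, mem_filter, mem_blk] at hN
    obtain ⟨⟨n1, -⟩, n3, -⟩ := hN
    rw [hF', mem_filter, mem_blk] at hM
    obtain ⟨⟨m1, -⟩, -⟩ := hM
    obtain ⟨-, a2, a3, a4, -⟩ := dyn_real hD d N i
    have hN0 : (0 : ℝ) < N := by
      have : 0 < N := lt_of_lt_of_le (by positivity) n1
      exact_mod_cast this
    have hst : (par d N i).card ∈ typ i D := by
      rw [mem_typ, a2]; exact ⟨od_le d i N, n3⟩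
    have hs3 := hsm _ hst
    set s := (par d N i).card with hs
    set M := (T d)^[i] N with hMdef
    have m1' : (2 : ℝ) ^ (k - 2 * D) ≤ M := by exact_mod_cast m1
    have hM0 : (0 : ℝ) < M := lt_of_lt_of_le (by positivity) m1'
    have hnum0 : (0 : ℝ) ≤ num i (par d N i) := Nat.cast_nonneg _
    have h2i : (0 : ℝ) < 2 ^ i := by positivity
    have h3s : (0 : ℝ) < 3 ^ s := by positivity
    -- `(1 - x) 2^i M ≤ 3^s N`
    have key : (1 - x) * (2 ^ i * M) ≤ 3 ^ s * (N : ℝ) := by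
      have h5 : (3 : ℝ) ^ s ≤ x * M := hs3.trans (mul_le_mul_of_nonneg_left m1' hx0)
      have h6 : (num i (par d N i) : ℝ) ≤ x * (2 ^ i * M) := by
        calc (num i (par d N i) : ℝ) ≤ 3 ^ s * 2 ^ i := by linarith
          _ ≤ x * M * 2 ^ i := mul_le_mul_of_nonneg_right h5 h2i.le
          _ = _ := by ring
      rcases Bool.eq_false_or_eq_true d with hd | hd
      · subst hd
        simp only [sg, if_true, Int.cast_one, one_mul] at a3
        linarith
      · subst hd
        simp only [sg, Bool.false_eq_true, if_false, Int.cast_neg, Int.cast_one, neg_mul,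
          one_mul] at a3
        have : 0 ≤ x * (2 ^ i * M) := by positivity
        linarith
    have e : v (img d i N) = 3 ^ s / (2 ^ i * M) := by
      simp only [hv, img, ← hs, ← hMdef]
      field_simp
    rw [e, one_div, mul_div_assoc', le_div_iff₀ (by positivity)]
    have h7 : (1 - x) * (1 + 2 * x) ≥ 1 := by nlinarith
    have h8 : 2 ^ i * (M : ℝ) ≤ (1 + 2 * x) * (3 ^ s * N) := by
      calc 2 ^ i * (M : ℝ) ≤ ((1 - x) * (1 + 2 * x)) * (2 ^ i * M) := by
            have : 0 ≤ 2 ^ i * (M : ℝ) := by positivity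
            nlinarith
        _ = (1 + 2 * x) * ((1 - x) * (2 ^ i * M)) := by ring
        _ ≤ _ := mul_le_mul_of_nonneg_left key (by linarith)
    rw [inv_mul_le_iff₀ hN0]
    calc 2 ^ i * (M : ℝ) ≤ (1 + 2 * x) * (3 ^ s * N) := h8
      _ = _ := by ring
  calc ∑ N ∈ F, (1 : ℝ) / N ≤ ∑ N ∈ F, (1 + 2 * x) * v (img d i N) := Finset.sum_le_sum hw
    _ = ∑ q ∈ F.image (img d i), (1 + 2 * x) * v q := by
        rw [Finset.sum_image fun _ _ _ _ h => img_inj hD d i h]
    _ ≤ ∑ q ∈ F'.sigma fun M => GI d i (typ i D) M, (1 + 2 * x) * v q := by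
        refine Finset.sum_le_sum_of_subset_of_nonneg ?_ fun q _ _ => ?_
        · intro q hq
          rw [mem_image] at hq
          obtain ⟨N, hN, rfl⟩ := hq
          have hN' := hN
          rw [hF, mem_filter] at hN'
          exact img_mem hD d (Ts := fun _ => typ i D) (hpos N hN)
            (mem_typ.2 ⟨od_le d i N, hN'.2.1⟩)
        · simp only [hv]
          positivity
    _ = (1 + 2 * x) * ∑ q ∈ F'.sigma fun M => GI d i (typ i D) M, v q := by
        rw [Finset.mul_sum]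

/-- the inverse of the dictionary -/
lemma preimage (hD : DynStatement) (d : Bool) (i M : ℕ) (S : Finset ℕ) (hS : S ⊆ Icc 1 i)
    (hres : xz (3 ^ S.card) S = ((sg d * M : ℤ) : ZMod (3 ^ S.card))) (hM : 3 ^ S.card ≤ M) :
    ∃ N : ℕ, (T d)^[i] N = M ∧ par d N i = S := by
  obtain ⟨-, h2, h3, h4⟩ := hD
  rw [res_iff h4 d i _ _ _ hS] at hres
  obtain ⟨c, hc⟩ := hres
  have hn := h3 i S hS
  have h1 : (num i S : ℤ) < 2 ^ i * M := by
    have : num i S < 2 ^ i * M := by
      calc num i S < num i S + 2 ^ i := by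
            have : 0 < 2 ^ i := by positivity
            omega
        _ ≤ 3 ^ S.card * 2 ^ i := hn
        _ ≤ M * 2 ^ i := Nat.mul_le_mul_right _ hM
        _ = 2 ^ i * M := Nat.mul_comm _ _
    exact_mod_cast this
  have hc0 : 0 ≤ c := by
    by_contra hcon
    rw [not_le] at hcon
    have h5 : ((3 ^ S.card : ℕ) : ℤ) * c < 0 :=
      mul_neg_of_pos_of_neg (by positivity) hcon
    have h6 : (0 : ℤ) ≤ num i S := Int.natCast_nonneg _
    rcases Bool.eq_false_or_eq_true d with hd | hd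
    · subst hd
      simp only [sg, if_true, one_mul] at hc
      linarith
    · subst hd
      simp only [sg, Bool.false_eq_true, if_false, neg_mul, one_mul] at hc
      linarith
  obtain ⟨N, rfl⟩ := Int.eq_ofNat_of_zero_le hc0
  refine ⟨N, h2 d N M i S hS ?_⟩
  push_cast at hc
  linarith

/-- Module LOWER -/
theorem lower (hD : DynStatement) : LowerStatement := by
  classical
  intro d a l i k D x B hD2 hia hDk hak hx0 hx1 hsm
  unfold G
  rw [sum_G d i (fun _ => typ i D)]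
  set F := (blk a l).filter (fun N => |2 * (od d i N : ℝ) - i| ≤ D ∧ (T d)^[i] N ∈ B) with hF
  set F' := (blk (k + 2 * D) (l - 4 * D)).filter (fun M => M ∈ B) with hF'
  have hD2' : (2 : ℝ) ≤ D := by exact_mod_cast hD2
  have th0 := th_nonneg
  have th2 := th_le_two
  have hak' := abs_le.1 hak
  set v : (Σ _ : ℕ, Σ _ : ℕ, Finset ℕ) → ℝ := fun q => 1 / (q.1 : ℝ) * ((3 : ℝ) ^ q.2.1 / 2 ^ i)
    with hv
  set Q := F'.sigma fun M => GI d i (typ i D) M with hQ
  -- basic facts for elements of the dictionary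
  have basic : ∀ N : ℕ, (T d)^[i] N ∈ F' → (par d N i).card ∈ typ i D →
      (1 - x) * (2 ^ i * ((T d)^[i] N : ℝ)) ≤ 3 ^ (par d N i).card * (N : ℝ) ∧
      3 ^ (par d N i).card * (N : ℝ) ≤ (1 + x) * (2 ^ i * ((T d)^[i] N : ℝ)) := by
    intro N hM hs
    obtain ⟨-, a2, a3, a4, -⟩ := dyn_real hD d N i
    rw [hF', mem_filter, mem_blk] at hM
    have hs3 := hsm _ hs
    have m1 : (2 : ℝ) ^ (k - 2 * D) ≤ ((T d)^[i] N : ℝ) := by
      have h1 : (2 : ℕ) ^ (k - 2 * D) ≤ 2 ^ (k + 2 * D) :=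
        Nat.pow_le_pow_right (by norm_num) (by omega)
      have h2 : (2 : ℕ) ^ (k - 2 * D) ≤ (T d)^[i] N := h1.trans hM.1.1
      exact_mod_cast h2
    have h5 : (3 : ℝ) ^ (par d N i).card ≤ x * ((T d)^[i] N : ℝ) :=
      hs3.trans (mul_le_mul_of_nonneg_left m1 hx0)
    have h2i : (0 : ℝ) < 2 ^ i := by positivity
    have h6 : (num i (par d N i) : ℝ) ≤ x * (2 ^ i * ((T d)^[i] N : ℝ)) := by
      calc (num i (par d N i) : ℝ) ≤ 3 ^ (par d N i).card * 2 ^ i := by linarith
        _ ≤ x * ((T d)^[i] N : ℝ) * 2 ^ i := mul_le_mul_of_nonneg_right h5 h2i.le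
        _ = _ := by ring
    have hnum0 : (0 : ℝ) ≤ num i (par d N i) := Nat.cast_nonneg _
    rcases Bool.eq_false_or_eq_true d with hd | hd
    · subst hd
      simp only [sg, if_true, Int.cast_one, one_mul] at a3
      constructor <;> linarith
    · subst hd
      simp only [sg, Bool.false_eq_true, if_false, Int.cast_neg, Int.cast_one, neg_mul,
        one_mul] at a3
      constructor <;> linarith
  -- surjectivity
  have surj : ∀ q ∈ Q, ∃ N ∈ F, img d i N = q := by
    rintro ⟨M, s, S⟩ hq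
    rw [hQ, mem_sigma] at hq
    obtain ⟨hM, hq2⟩ := hq
    unfold GI at hq2
    rw [mem_sigma] at hq2
    obtain ⟨hs, hq3⟩ := hq2
    rw [mem_filter, mem_powersetCard] at hq3
    obtain ⟨⟨hS, hcard⟩, hres⟩ := hq3
    simp only at hM hs hS hcard hres
    subst hcard
    have hM' := hM
    rw [hF', mem_filter, mem_blk] at hM'
    obtain ⟨⟨m1, m2⟩, mB⟩ := hM'
    have hs3 := hsm _ hs
    have h3M : 3 ^ S.card ≤ M := by
      have h1 : (2 : ℕ) ^ (k - 2 * D) ≤ M :=
        le_trans (Nat.pow_le_pow_right (by norm_num) (by omega)) m1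
      have h2 : ((3 : ℝ)) ^ S.card ≤ M := by
        have h3 : (2 : ℝ) ^ (k - 2 * D) ≤ M := by exact_mod_cast h1
        have h4 : (0:ℝ) < 2 ^ (k - 2 * D) := by positivity
        nlinarith
      exact_mod_cast h2
    obtain ⟨N, hN1, hN2⟩ := preimage hD d i M S hS hres h3M
    obtain ⟨-, a2, -, -, -⟩ := dyn_real hD d N i
    have b := basic N (by rw [hN1]; exact hM) (by rw [hN2]; exact hs)
    rw [hN1, hN2] at b
    obtain ⟨b1, b2⟩ := b
    obtain ⟨hsi, habs⟩ := mem_typ.1 hs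
    have habs' := abs_le.1 habs
    have hl : 4 * D ≤ l := by
      by_contra hcon
      have : l - 4 * D = 0 := by omega
      rw [this] at m2
      simp only [add_zero] at m2
      omega
    have m1' : (2 : ℝ) ^ ((k : ℝ) + 2 * D) ≤ M := by
      have : (2 : ℝ) ^ (k + 2 * D) ≤ M := by exact_mod_cast m1
      rw [← Real.rpow_natCast] at this
      push_cast at this
      exact this
    have m2' : (M : ℝ) < (2 : ℝ) ^ ((k : ℝ) + l - 2 * D) := by
      have : (M : ℝ) < (2 : ℝ) ^ (k + 2 * D + (l - 4 * D)) := by exact_mod_cast m2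
      rw [← Real.rpow_natCast] at this
      push_cast [Nat.cast_sub hl] at this
      rwa [show (k : ℝ) + 2 * D + (l - 4 * D) = (k : ℝ) + l - 2 * D by ring] at this
    have h3s := three_pow S.card
    have h2i : (2 : ℝ) ^ i = (2 : ℝ) ^ (i : ℝ) := (Real.rpow_natCast _ _).symm
    have h3pos : (0 : ℝ) < 3 ^ S.card := by positivity
    refine ⟨N, ?_, ?_⟩
    · rw [hF, mem_filter, mem_blk, hN1]
      refine ⟨⟨?_, ?_⟩, ?_, mB⟩
      · -- lower bound
        have h1 : (2 : ℝ) ^ a * 3 ^ S.card ≤ 3 ^ S.card * (N : ℝ) := by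
          refine le_trans ?_ b1
          calc (2 : ℝ) ^ a * 3 ^ S.card = (2 : ℝ) ^ ((a : ℝ) + th * S.card) := by
                rw [h3s, ← Real.rpow_natCast 2 a, ← Real.rpow_add two_pos]
            _ ≤ (2 : ℝ) ^ (-1 + ((i : ℝ) + ((k : ℝ) + 2 * D))) := by
                refine Real.rpow_le_rpow_of_exponent_le (by norm_num) ?_
                unfold mu at hak'
                nlinarith
            _ = 1 / 2 * ((2 : ℝ) ^ i * (2 : ℝ) ^ ((k : ℝ) + 2 * D)) := by
                rw [Real.rpow_add two_pos (-1) _, Real.rpow_add two_pos (i : ℝ) _,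
                  Real.rpow_neg_one, Real.rpow_natCast]
                ring
            _ ≤ (1 - x) * (2 ^ i * (M : ℝ)) := by
                refine mul_le_mul (by linarith) ?_ (by positivity) (by linarith)
                exact mul_le_mul_of_nonneg_left m1' (by positivity)
        have h2 : (2 : ℝ) ^ a ≤ N := by
          rw [mul_comm] at h1
          exact le_of_mul_le_mul_left h1 h3pos
        exact_mod_cast h2
      · have h1 : 3 ^ S.card * (N : ℝ) < 3 ^ S.card * (2 : ℝ) ^ (a + l) := by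
          refine lt_of_le_of_lt b2 ?_
          calc (1 + x) * (2 ^ i * (M : ℝ)) ≤ 3 / 2 * (2 ^ i * (M : ℝ)) :=
                mul_le_mul_of_nonneg_right (by linarith) (by positivity)
            _ ≤ 3 / 2 * (2 ^ i * (2 : ℝ) ^ ((k : ℝ) + l - 2 * D)) := by
                refine mul_le_mul_of_nonneg_left ?_ (by norm_num)
                exact mul_le_mul_of_nonneg_left m2'.le (by positivity)
            _ < (2 : ℝ) ^ (1 + ((i : ℝ) + ((k : ℝ) + l - 2 * D))) := by
                rw [Real.rpow_add two_pos 1 _, Real.rpow_add two_pos (i : ℝ) _, Real.rpow_one,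
                  Real.rpow_natCast]
                refine mul_lt_mul_of_pos_right (by norm_num) (by positivity)
            _ ≤ (2 : ℝ) ^ (th * S.card + ((a : ℝ) + l)) := by
                refine Real.rpow_le_rpow_of_exponent_le (by norm_num) ?_
                unfold mu at hak'
                nlinarith
            _ = 3 ^ S.card * (2 : ℝ) ^ (a + l) := by
                rw [h3s, ← Real.rpow_natCast 2 (a + l), ← Real.rpow_add two_pos]
                push_cast
                rfl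
        have h2 : (N : ℝ) < (2 : ℝ) ^ (a + l) := lt_of_mul_lt_mul_left h1 h3pos.le
        exact_mod_cast h2
      · rw [← a2, hN2]; exact habs
    · unfold img
      rw [hN1, hN2]
  -- conclusion
  set F0 := F.filter (fun N => img d i N ∈ Q) with hF0
  have hsub : Q ⊆ F0.image (img d i) := by
    intro q hq
    obtain ⟨N, hN, rfl⟩ := surj q hq
    exact mem_image.2 ⟨N, mem_filter.2 ⟨hN, hq⟩, rfl⟩
  have hw : ∀ N ∈ F0, (1 - x) * v (img d i N) ≤ (1 : ℝ) / N := by
    intro N hN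
    rw [hF0, mem_filter] at hN
    obtain ⟨hNF, hNQ⟩ := hN
    rw [hF, mem_filter, mem_blk] at hNF
    have hNQ' := hNQ
    rw [hQ, mem_sigma] at hNQ'
    unfold GI at hNQ'
    rw [mem_sigma] at hNQ'
    obtain ⟨q1, q2, -⟩ := hNQ'
    have b := basic N q1 q2
    have hN0 : (0 : ℝ) < N := by
      have : 0 < N := lt_of_lt_of_le (by positivity) hNF.1.1
      exact_mod_cast this
    have hM0 : (0 : ℝ) < ((T d)^[i] N : ℝ) := by
      have h1 : (T d)^[i] N ∈ F' := q1
      rw [hF', mem_filter, mem_blk] at h1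
      have : 0 < (T d)^[i] N := lt_of_lt_of_le (by positivity) h1.1.1
      exact_mod_cast this
    have e : v (img d i N) = 3 ^ (par d N i).card / (2 ^ i * ((T d)^[i] N : ℝ)) := by
      simp only [hv, img]
      field_simp
    rw [e, mul_div_assoc', div_le_div_iff₀ (by positivity) hN0]
    have h1x : 0 ≤ 1 - x := by linarith
    calc (1 - x) * 3 ^ (par d N i).card * (N : ℝ) = (1 - x) * (3 ^ (par d N i).card * N) := by ring
      _ ≤ (1 - x) * ((1 + x) * (2 ^ i * ((T d)^[i] N : ℝ))) :=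
          mul_le_mul_of_nonneg_left b.2 h1x
      _ = (1 - x ^ 2) * (2 ^ i * ((T d)^[i] N : ℝ)) := by ring
      _ ≤ 1 * (2 ^ i * ((T d)^[i] N : ℝ)) :=
          mul_le_mul_of_nonneg_right (by nlinarith) (by positivity)
  have h1x : 0 ≤ 1 - x := by linarith
  calc (1 - x) * ∑ q ∈ Q, v q = ∑ q ∈ Q, (1 - x) * v q := by rw [Finset.mul_sum]
    _ ≤ ∑ q ∈ F0.image (img d i), (1 - x) * v q := by
        refine Finset.sum_le_sum_of_subset_of_nonneg hsub fun q _ _ => ?_
        simp only [hv]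
        positivity
    _ = ∑ N ∈ F0, (1 - x) * v (img d i N) := by
        rw [Finset.sum_image fun _ _ _ _ h => img_inj hD d i h]
    _ ≤ ∑ N ∈ F0, (1 : ℝ) / N := Finset.sum_le_sum hw
    _ ≤ ∑ N ∈ F, (1 : ℝ) / N :=
        Finset.sum_le_sum_of_subset_of_nonneg (filter_subset _ _) fun N _ _ => by positivity

/-- Module UBD -/
theorem ubd (hD : DynStatement) : UbdStatement := by
  classical
  intro d L i D W hiL
  set Ts : ℕ → Finset ℕ := fun M => (typ i D).filter (fun s : ℕ =>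
      (L : ℝ) - 1 ≤ Real.logb 2 M + i - th * s ∧ Real.logb 2 M + i - th * s < L + 2) with hTs
  have hrw := sum_G d i Ts W
  rw [hrw]
  set F := (Ico (2 ^ L) (2 ^ (L + 1))).filter
      (fun N => |2 * (od d i N : ℝ) - i| ≤ D ∧ (T d)^[i] N ∈ W) with hF
  set v : (Σ _ : ℕ, Σ _ : ℕ, Finset ℕ) → ℝ := fun q => 1 / (q.1 : ℝ) * ((3 : ℝ) ^ q.2.1 / 2 ^ i)
    with hv
  -- basic estimates
  have basic : ∀ N ∈ F, (2 : ℝ) ^ L / 2 * 3 ^ (par d N i).card ≤ 2 ^ i * ((T d)^[i] N : ℝ) ∧
      2 ^ i * ((T d)^[i] N : ℝ) < 4 * 2 ^ L * 3 ^ (par d N i).card := by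
    intro N hN
    rw [hF, mem_filter, mem_Ico] at hN
    obtain ⟨⟨n1, n2⟩, n3, n4⟩ := hN
    obtain ⟨-, a2, a3, a4, -⟩ := dyn_real hD d N i
    set s := (par d N i).card with hs
    have hnum0 : (0 : ℝ) ≤ num i (par d N i) := Nat.cast_nonneg _
    have h3s : (0 : ℝ) < 3 ^ s := by positivity
    have m1 : (2 : ℝ) ^ L ≤ N := by exact_mod_cast n1
    have m2 : (N : ℝ) < 2 ^ (L + 1) := by exact_mod_cast n2
    have h2 : (2 : ℝ) ^ i ≤ 2 ^ L / 2 := by
      have : (2 : ℝ) ^ (i + 1) ≤ 2 ^ L := pow_le_pow_right₀ (by norm_num) hiL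
      rw [pow_succ] at this
      linarith
    have h2i : (0 : ℝ) < 2 ^ i := by positivity
    have h5 : (num i (par d N i) : ℝ) ≤ 3 ^ s * ((N : ℝ) / 2) := by
      calc (num i (par d N i) : ℝ) ≤ 3 ^ s * 2 ^ i := by linarith
        _ ≤ _ := mul_le_mul_of_nonneg_left (by linarith) h3s.le
    have h6 : (2 : ℝ) ^ L * 3 ^ s ≤ 3 ^ s * N := by
      rw [mul_comm]; exact mul_le_mul_of_nonneg_left m1 h3s.le
    have h7 : 3 ^ s * (N : ℝ) < 2 * 2 ^ L * 3 ^ s := by
      rw [pow_succ] at m2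
      have := mul_lt_mul_of_pos_left m2 h3s
      linarith
    have h8 : 0 < (2 : ℝ) ^ L * 3 ^ s := by positivity
    rcases Bool.eq_false_or_eq_true d with hd | hd
    · subst hd
      simp only [sg, if_true, Int.cast_one, one_mul] at a3
      constructor <;> linarith
    · subst hd
      simp only [sg, Bool.false_eq_true, if_false, Int.cast_neg, Int.cast_one, neg_mul,
        one_mul] at a3
      constructor <;> linarith
  have hMpos : ∀ N ∈ F, (0 : ℝ) < ((T d)^[i] N : ℝ) := by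
    intro N hN
    have b := (basic N hN).1
    by_contra hcon
    rw [not_lt] at hcon
    have h0 : (0 : ℝ) < (2 : ℝ) ^ L / 2 * 3 ^ (par d N i).card := by positivity
    have h1 : (2 : ℝ) ^ i * ((T d)^[i] N : ℝ) ≤ 0 :=
      mul_nonpos_of_nonneg_of_nonpos (by positivity) hcon
    linarith
  have hmem : ∀ N ∈ F, img d i N ∈ W.sigma fun M => GI d i (Ts M) M := by
    intro N hN
    have hN' := hN
    rw [hF, mem_filter, mem_Ico] at hN'
    obtain ⟨-, n3, n4⟩ := hN'
    obtain ⟨b1, b2⟩ := basic N hN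
    have hM0 := hMpos N hN
    have a2 := (dyn_real hD d N i).2.1
    rw [a2] at b1 b2
    refine img_mem hD d n4 ?_
    rw [hTs]
    simp only
    rw [mem_filter, mem_typ]
    have h3s : (0 : ℝ) < 3 ^ (od d i N) := by positivity
    have e : Real.logb 2 ((T d)^[i] N : ℝ) + i - th * (od d i N) =
        Real.logb 2 (2 ^ i * ((T d)^[i] N : ℝ) / 3 ^ (od d i N)) := by
      rw [Real.logb_div (by positivity) (by positivity),
        Real.logb_mul (by positivity) (by positivity), Real.logb_pow, Real.logb_pow,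
        Real.logb_self_eq_one (by norm_num)]
      unfold th
      ring
    rw [e]
    have hpos : 0 < 2 ^ i * ((T d)^[i] N : ℝ) / 3 ^ (od d i N) := by positivity
    refine ⟨⟨od_le d i N, n3⟩, ?_, ?_⟩
    · rw [Real.le_logb_iff_rpow_le (by norm_num) hpos, Real.rpow_sub two_pos, Real.rpow_one,
        Real.rpow_natCast, le_div_iff₀ h3s]
      exact b1
    · rw [Real.logb_lt_iff_lt_rpow (by norm_num) hpos, Real.rpow_add two_pos,
        Real.rpow_natCast, div_lt_iff₀ h3s]
      have : (2 : ℝ) ^ (2 : ℝ) = 4 := by norm_num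
      rw [this, mul_comm ((2 : ℝ) ^ L) 4]
      exact b2
  have hw : ∀ N ∈ F, (1 : ℝ) ≤ 2 ^ (L + 2) * v (img d i N) := by
    intro N hN
    have hM0 := hMpos N hN
    obtain ⟨b1, b2⟩ := basic N hN
    have e : v (img d i N) = 3 ^ (par d N i).card / (2 ^ i * ((T d)^[i] N : ℝ)) := by
      simp only [hv, img]
      field_simp
    rw [e, mul_div_assoc', le_div_iff₀ (by positivity), one_mul]
    have h4 : (2 : ℝ) ^ (L + 2) = 4 * 2 ^ L := by rw [pow_add]; ring
    rw [h4]
    exact b2.le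
  calc (F.card : ℝ) = ∑ _N ∈ F, (1 : ℝ) := by simp
    _ ≤ ∑ N ∈ F, 2 ^ (L + 2) * v (img d i N) := Finset.sum_le_sum hw
    _ = ∑ q ∈ F.image (img d i), 2 ^ (L + 2) * v q := by
        rw [Finset.sum_image fun _ _ _ _ h => img_inj hD d i h]
    _ ≤ ∑ q ∈ W.sigma fun M => GI d i (Ts M) M, 2 ^ (L + 2) * v q := by
        refine Finset.sum_le_sum_of_subset_of_nonneg ?_ fun q _ _ => ?_
        · intro q hq
          rw [mem_image] at hq
          obtain ⟨N, hN, rfl⟩ := hq
          exact hmem N hN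
        · simp only [hv]
          positivity
    _ = 2 ^ (L + 2) * ∑ q ∈ W.sigma fun M => GI d i (Ts M) M, v q := by
        rw [Finset.mul_sum]

end Pool.Agent.Lib.MP_0a5adf_nt.H55
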